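import Mathlib

/-!
# The image of the virtual integral Burau representation

The virtual braid group on `m + 1` strands is given by its presentation.  We construct the
virtual integral Burau representation `ρ` into `GL (Fin (m + 1)) ℤ` and show that its image consists
exactly of the matrices `M` which fix the vector `(1, …, 1)` and whose reduction modulo `2` is a
permutation matrix.
-/

set_option autoImplicit false

namespace Pool.Agent.Results.MP_e5baee_al.ImageDetermined

open Matrix

/-- The defining relators of the virtual braid group on `m + 1` strands; `Sum.inl i` is the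
generator `σ_i` and `Sum.inr i` is the generator `τ_i`, `i = 0, …, m - 1`. -/
inductive Rel (m : ℕ) : FreeGroup (Fin m ⊕ Fin m) → Prop
  | braid (i j : Fin m) : (i : ℕ) + 1 = j → Rel m
      (FreeGroup.of (.inl i) * FreeGroup.of (.inl j) * FreeGroup.of (.inl i) *
        (FreeGroup.of (.inl j) * FreeGroup.of (.inl i) * FreeGroup.of (.inl j))⁻¹)
  | far (i j : Fin m) : (i : ℕ) + 2 ≤ j → Rel m
      (FreeGroup.of (.inl i) * FreeGroup.of (.inl j) *
        (FreeGroup.of (.inl j) * FreeGroup.of (.inl i))⁻¹)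
  | sq (i : Fin m) : Rel m (FreeGroup.of (.inr i) * FreeGroup.of (.inr i))
  | tbraid (i j : Fin m) : (i : ℕ) + 1 = j → Rel m
      (FreeGroup.of (.inr i) * FreeGroup.of (.inr j) * FreeGroup.of (.inr i) *
        (FreeGroup.of (.inr j) * FreeGroup.of (.inr i) * FreeGroup.of (.inr j))⁻¹)
  | tfar (i j : Fin m) : (i : ℕ) + 2 ≤ j → Rel m
      (FreeGroup.of (.inr i) * FreeGroup.of (.inr j) *
        (FreeGroup.of (.inr j) * FreeGroup.of (.inr i))⁻¹)
  | mfar (i j : Fin m) : (i : ℕ) + 2 ≤ j ∨ (j : ℕ) + 2 ≤ i → Rel m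
      (FreeGroup.of (.inl i) * FreeGroup.of (.inr j) *
        (FreeGroup.of (.inr j) * FreeGroup.of (.inl i))⁻¹)
  | mixed (i j : Fin m) : (i : ℕ) + 1 = j → Rel m
      (FreeGroup.of (.inr i) * FreeGroup.of (.inr j) * FreeGroup.of (.inl i) *
        (FreeGroup.of (.inl j) * FreeGroup.of (.inr i) * FreeGroup.of (.inr j))⁻¹)

/-- The virtual braid group on `m + 1` strands. -/
abbrev VB (m : ℕ) : Type := PresentedGroup {r : FreeGroup (Fin m ⊕ Fin m) | Rel m r}

/-- The matrix which is `[[2, -1], [1, 0]]` on the coordinates `a`, `b` and the identity on the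
other coordinates. -/
def sMat {ι : Type*} [DecidableEq ι] (a b : ι) : Matrix ι ι ℤ := fun x y =>
  if x = a then 2 * (1 : Matrix ι ι ℤ) a y - (1 : Matrix ι ι ℤ) b y
  else if x = b then (1 : Matrix ι ι ℤ) a y else (1 : Matrix ι ι ℤ) x y

/-- The matrix which is `[[0, 1], [1, 0]]` on the coordinates `a`, `b` and the identity on the
other coordinates. -/
def tMat {ι : Type*} [DecidableEq ι] (a b : ι) : Matrix ι ι ℤ := fun x y =>
  if x = a then (1 : Matrix ι ι ℤ) b y
  else if x = b then (1 : Matrix ι ι ℤ) a y else (1 : Matrix ι ι ℤ) x y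

section rows

variable {ι : Type*} [DecidableEq ι] [Fintype ι]

theorem one_mul_row (M : Matrix ι ι ℤ) (x y : ι) :
    ∑ z, (1 : Matrix ι ι ℤ) x z * M z y = M x y := by
  have := congrFun (congrFun (Matrix.one_mul M) x) y
  rwa [Matrix.mul_apply] at this

theorem sMat_mul (a b : ι) (M : Matrix ι ι ℤ) (x y : ι) :
    (sMat a b * M) x y =
      if x = a then 2 * M a y - M b y else if x = b then M a y else M x y := by
  rw [Matrix.mul_apply]
  unfold sMat
  split_ifs with h1 h2
  · simp only [sub_mul, mul_assoc, Finset.sum_sub_distrib, ← Finset.mul_sum, one_mul_row]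
  · exact one_mul_row M a y
  · exact one_mul_row M x y

theorem tMat_mul (a b : ι) (M : Matrix ι ι ℤ) (x y : ι) :
    (tMat a b * M) x y = if x = a then M b y else if x = b then M a y else M x y := by
  rw [Matrix.mul_apply]
  unfold tMat
  split_ifs with h1 h2
  · exact one_mul_row M b y
  · exact one_mul_row M a y
  · exact one_mul_row M x y

/-- the inverse of `sMat a b` -/
def sInv (a b : ι) : Matrix ι ι ℤ := tMat a b * sMat a b * tMat a b

theorem sMat_sInv {a b : ι} (h : a ≠ b) : sMat a b * sInv a b = 1 := by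
  ext x y
  unfold sInv
  rw [← Matrix.mul_one (tMat a b * sMat a b * tMat a b)]
  simp only [Matrix.mul_assoc, sMat_mul, tMat_mul]
  by_cases h1 : x = a
  · subst h1; simp [h, h.symm]
  · by_cases h2 : x = b
    · subst h2; simp [h, h.symm]
    · simp [h1, h2]

theorem tMat_tMat {a b : ι} (h : a ≠ b) : tMat a b * tMat a b = 1 := by
  ext x y
  rw [← Matrix.mul_one (tMat a b * tMat a b)]
  simp only [Matrix.mul_assoc, tMat_mul]
  by_cases h1 : x = a
  · subst h1; simp [h, h.symm]
  · by_cases h2 : x = b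
    · subst h2; simp [h, h.symm]
    · simp [h1, h2]

theorem sInv_sMat {a b : ι} (h : a ≠ b) : sInv a b * sMat a b = 1 := by
  ext x y
  unfold sInv
  rw [← Matrix.mul_one (tMat a b * sMat a b * tMat a b * sMat a b)]
  simp only [Matrix.mul_assoc, sMat_mul, tMat_mul]
  by_cases h1 : x = a
  · subst h1; simp [h.symm]
  · by_cases h2 : x = b
    · subst h2; simp [h, h.symm]
    · simp [h1, h2]

/-- `sMat` as an element of `GL` -/
def sGL {a b : ι} (h : a ≠ b) : GL ι ℤ :=
  ⟨sMat a b, sInv a b, sMat_sInv h, sInv_sMat h⟩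

/-- `tMat` as an element of `GL` -/
def tGL {a b : ι} (h : a ≠ b) : GL ι ℤ :=
  ⟨tMat a b, tMat a b, tMat_tMat h, tMat_tMat h⟩

theorem s_braid {a b c : ι} (hab : a ≠ b) (hbc : b ≠ c) (hac : a ≠ c) :
    sMat a b * sMat b c * sMat a b = sMat b c * sMat a b * sMat b c := by
  ext x y
  rw [← Matrix.mul_one (sMat a b * sMat b c * sMat a b),
    ← Matrix.mul_one (sMat b c * sMat a b * sMat b c)]
  simp only [Matrix.mul_assoc, sMat_mul]
  by_cases h1 : x = a
  · subst h1; simp [hab, hac, hab.symm, hac.symm, hbc, hbc.symm]; ring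
  by_cases h2 : x = b
  · subst h2; simp [hab, hac, hab.symm, hac.symm, hbc, hbc.symm]
  by_cases h3 : x = c
  · subst h3; simp [hab, hac, hab.symm, hac.symm, hbc, hbc.symm]
  simp [h1, h2, h3]

theorem t_braid {a b c : ι} (hab : a ≠ b) (hbc : b ≠ c) (hac : a ≠ c) :
    tMat a b * tMat b c * tMat a b = tMat b c * tMat a b * tMat b c := by
  ext x y
  rw [← Matrix.mul_one (tMat a b * tMat b c * tMat a b),
    ← Matrix.mul_one (tMat b c * tMat a b * tMat b c)]
  simp only [Matrix.mul_assoc, tMat_mul]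
  by_cases h1 : x = a
  · subst h1; simp [hab, hac, hab.symm, hac.symm, hbc, hbc.symm]
  by_cases h2 : x = b
  · subst h2; simp [hab, hac, hab.symm, hac.symm, hbc, hbc.symm]
  by_cases h3 : x = c
  · subst h3; simp [hab, hac, hab.symm, hac.symm, hbc, hbc.symm]
  simp [h1, h2, h3]

theorem m_braid {a b c : ι} (hab : a ≠ b) (hbc : b ≠ c) (hac : a ≠ c) :
    tMat a b * tMat b c * sMat a b = sMat b c * tMat a b * tMat b c := by
  ext x y
  rw [← Matrix.mul_one (tMat a b * tMat b c * sMat a b),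
    ← Matrix.mul_one (sMat b c * tMat a b * tMat b c)]
  simp only [Matrix.mul_assoc, tMat_mul, sMat_mul]
  by_cases h1 : x = a
  · subst h1; simp [hab, hac, hab.symm, hac.symm, hbc, hbc.symm]
  by_cases h2 : x = b
  · subst h2; simp [hab, hac, hab.symm, hac.symm, hbc, hbc.symm]
  by_cases h3 : x = c
  · subst h3; simp [hab, hac, hab.symm, hac.symm, hbc, hbc.symm]
  simp [h1, h2, h3]

theorem s_far {a b c d : ι} (hac : a ≠ c) (had : a ≠ d) (hbc : b ≠ c) (hbd : b ≠ d) :
    sMat a b * sMat c d = sMat c d * sMat a b := by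
  ext x y
  rw [← Matrix.mul_one (sMat a b * sMat c d), ← Matrix.mul_one (sMat c d * sMat a b)]
  simp only [Matrix.mul_assoc, sMat_mul]
  by_cases h1 : x = a
  · subst h1; simp [hac, had, hbc, hbd]
  by_cases h2 : x = b
  · subst h2; simp [hac, had, hbc, hbd]
  by_cases h3 : x = c
  · subst h3; simp [hac.symm, hbc.symm, had.symm, hbd.symm]
  by_cases h4 : x = d
  · subst h4; simp [hac.symm, hbc.symm, had.symm, hbd.symm, h3]
  simp [h1, h2, h3, h4]

theorem t_far {a b c d : ι} (hac : a ≠ c) (had : a ≠ d) (hbc : b ≠ c) (hbd : b ≠ d) :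
    tMat a b * tMat c d = tMat c d * tMat a b := by
  ext x y
  rw [← Matrix.mul_one (tMat a b * tMat c d), ← Matrix.mul_one (tMat c d * tMat a b)]
  simp only [Matrix.mul_assoc, tMat_mul]
  by_cases h1 : x = a
  · subst h1; simp [hac, had, hbc, hbd]
  by_cases h2 : x = b
  · subst h2; simp [hac, had, hbc, hbd]
  by_cases h3 : x = c
  · subst h3; simp [hac.symm, hbc.symm, had.symm, hbd.symm]
  by_cases h4 : x = d
  · subst h4; simp [hac.symm, hbc.symm, had.symm, hbd.symm, h3]
  simp [h1, h2, h3, h4]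

theorem m_far {a b c d : ι} (hac : a ≠ c) (had : a ≠ d) (hbc : b ≠ c) (hbd : b ≠ d) :
    sMat a b * tMat c d = tMat c d * sMat a b := by
  ext x y
  rw [← Matrix.mul_one (sMat a b * tMat c d), ← Matrix.mul_one (tMat c d * sMat a b)]
  simp only [Matrix.mul_assoc, tMat_mul, sMat_mul]
  by_cases h1 : x = a
  · subst h1; simp [hac, had, hbc, hbd]
  by_cases h2 : x = b
  · subst h2; simp [hac, had, hbc, hbd]
  by_cases h3 : x = c
  · subst h3; simp [hac.symm, hbc.symm, had.symm, hbd.symm]
  by_cases h4 : x = d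
  · subst h4; simp [hac.symm, hbc.symm, had.symm, hbd.symm, h3]
  simp [h1, h2, h3, h4]

end rows

section rep

variable {m : ℕ}

theorem cs_ne (i : Fin m) : i.castSucc ≠ i.succ := (Fin.castSucc_lt_succ (i := i)).ne

/-- the value of the representation on the generators -/
def gen : Fin m ⊕ Fin m → GL (Fin (m + 1)) ℤ
  | .inl i => sGL (cs_ne i)
  | .inr i => tGL (cs_ne i)

theorem gen_rel (r : FreeGroup (Fin m ⊕ Fin m)) (hr : Rel m r) :
    FreeGroup.lift (gen (m := m)) r = 1 := by
  have key : ∀ {i j : Fin m}, (i : ℕ) + 1 = j → i.succ = j.castSucc := by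
    intro i j h; ext; simpa using h
  have key2 : ∀ {i j : Fin m}, (i : ℕ) + 2 ≤ j →
      i.castSucc ≠ j.castSucc ∧ i.castSucc ≠ j.succ ∧ i.succ ≠ j.castSucc ∧ i.succ ≠ j.succ := by
    intro i j h
    refine ⟨?_, ?_, ?_, ?_⟩ <;> · intro h'; have := congrArg Fin.val h'; simp at this; omega
  have key3 : ∀ {i j : Fin m}, (i : ℕ) + 1 = j → j.castSucc ≠ j.succ ∧ i.castSucc ≠ j.succ ∧
      i.castSucc ≠ j.castSucc := by
    intro i j h
    refine ⟨cs_ne j, ?_, ?_⟩ <;> · intro h'; have := congrArg Fin.val h'; simp at this; omega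
  cases hr with
  | braid i j h =>
    have e := key h
    obtain ⟨h1, h2, h3⟩ := key3 h
    simp only [map_mul, map_inv, FreeGroup.lift_apply_of, mul_inv_eq_one]
    apply Units.ext
    have := s_braid h3 h1 h2
    simpa [gen, sGL, e] using this
  | far i j h =>
    obtain ⟨h1, h2, h3, h4⟩ := key2 h
    simp only [map_mul, map_inv, FreeGroup.lift_apply_of, mul_inv_eq_one]
    apply Units.ext
    exact s_far h1 h2 h3 h4
  | sq i =>
    simp only [map_mul, FreeGroup.lift_apply_of]
    apply Units.ext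
    exact tMat_tMat (cs_ne i)
  | tbraid i j h =>
    have e := key h
    obtain ⟨h1, h2, h3⟩ := key3 h
    simp only [map_mul, map_inv, FreeGroup.lift_apply_of, mul_inv_eq_one]
    apply Units.ext
    have := t_braid h3 h1 h2
    simpa [gen, tGL, e] using this
  | tfar i j h =>
    obtain ⟨h1, h2, h3, h4⟩ := key2 h
    simp only [map_mul, map_inv, FreeGroup.lift_apply_of, mul_inv_eq_one]
    apply Units.ext
    exact t_far h1 h2 h3 h4
  | mfar i j h =>
    simp only [map_mul, map_inv, FreeGroup.lift_apply_of, mul_inv_eq_one]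
    apply Units.ext
    rcases h with h | h
    · obtain ⟨h1, h2, h3, h4⟩ := key2 h
      exact m_far h1 h2 h3 h4
    · obtain ⟨h1, h2, h3, h4⟩ := key2 h
      exact m_far h1.symm h3.symm h2.symm h4.symm
  | mixed i j h =>
    have e := key h
    obtain ⟨h1, h2, h3⟩ := key3 h
    simp only [map_mul, map_inv, FreeGroup.lift_apply_of, mul_inv_eq_one]
    apply Units.ext
    have := m_braid h3 h1 h2
    simpa [gen, tGL, sGL, e] using this

/-- The virtual integral Burau representation. -/
def rho (m : ℕ) : VB m →* GL (Fin (m + 1)) ℤ := PresentedGroup.toGroup (f := gen) gen_rel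

end rep

section perm

variable {ι : Type*} [DecidableEq ι] [Fintype ι] {R : Type*} [CommRing R]

/-- the permutation matrix of `π`, with entry `1` at the places `(π y, y)` -/
def pMat (R : Type*) [CommRing R] (π : Equiv.Perm ι) : Matrix ι ι R :=
  fun x y => if x = π y then 1 else 0

theorem pMat_mul (π : Equiv.Perm ι) (M : Matrix ι ι R) (x y : ι) :
    (pMat R π * M) x y = M (π⁻¹ x) y := by
  rw [Matrix.mul_apply, Finset.sum_eq_single (π⁻¹ x)]
  · simp [pMat]
  · intro z _ hz
    have : x ≠ π z := by rintro rfl; simp at hz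
    simp [pMat, this]
  · simp

theorem pMat_pMat (π ρ : Equiv.Perm ι) : pMat R (π * ρ) = pMat R π * pMat R ρ := by
  ext x y
  rw [pMat_mul]
  exact if_congr (by simp [Equiv.symm_apply_eq]) rfl rfl

theorem pMat_one : pMat R (1 : Equiv.Perm ι) = 1 := by
  ext x y; exact if_congr (by simp) rfl rfl

/-- permutation matrices as a homomorphism -/
def pGL (R : Type*) [CommRing R] : Equiv.Perm ι →* GL ι R where
  toFun π := ⟨pMat R π, pMat R π⁻¹, by rw [← pMat_pMat, mul_inv_cancel, pMat_one],
    by rw [← pMat_pMat, inv_mul_cancel, pMat_one]⟩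
  map_one' := Units.ext pMat_one
  map_mul' π ρ := Units.ext (pMat_pMat π ρ)

theorem tGL_eq {a b : ι} (h : a ≠ b) : tGL h = pGL ℤ (Equiv.swap a b) := by
  apply Units.ext
  ext x y
  change (tMat a b) x y = pMat ℤ (Equiv.swap a b) x y
  rw [← Matrix.mul_one (pMat ℤ (Equiv.swap a b)), pMat_mul, Equiv.swap_inv]
  unfold tMat
  by_cases h1 : x = a
  · rw [if_pos h1, h1, Equiv.swap_apply_left]
  · by_cases h2 : x = b
    · rw [if_neg h1, if_pos h2, h2, Equiv.swap_apply_right]
    · rw [if_neg h1, if_neg h2, Equiv.swap_apply_of_ne_of_ne h1 h2]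

/-- The reflection `row_i ↦ 2 row_j - row_i`. -/
def rGL {i j : ι} (h : i ≠ j) : GL ι ℤ := sGL h * tGL h

theorem rGL_mul {i j : ι} (h : i ≠ j) (M : GL ι ℤ) (x y : ι) :
    (rGL h * M).1 x y = if x = i then 2 * M.1 j y - M.1 i y else M.1 x y := by
  change (sMat i j * tMat i j * M.1) x y = _
  rw [Matrix.mul_assoc, sMat_mul, tMat_mul, tMat_mul]
  by_cases h1 : x = i
  · subst h1; simp [h.symm]
  · by_cases h2 : x = j
    · subst h2; simp [h.symm]
    · simp [h1, h2, tMat_mul]

theorem rGL_conj {i j : ι} (h : i ≠ j) (π : Equiv.Perm ι) (h' : π i ≠ π j) :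
    pGL ℤ π * rGL h * (pGL ℤ π)⁻¹ = rGL h' := by
  rw [mul_inv_eq_iff_eq_mul]
  apply Units.ext
  ext x y
  rw [rGL_mul]
  change (pMat ℤ π * (rGL h).1) x y = if x = π i then 2 * pMat ℤ π (π j) y - pMat ℤ π (π i) y
    else pMat ℤ π x y
  rw [pMat_mul, ← mul_one (rGL h), rGL_mul, ← Matrix.mul_one (pMat ℤ π), pMat_mul, pMat_mul,
    pMat_mul]
  have e : ∀ z, π⁻¹ (π z) = z := fun z => π.symm_apply_apply z
  by_cases h1 : x = π i
  · subst h1
    rw [e j, e i, if_pos rfl, if_pos rfl]
    rfl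
  · have : π⁻¹ x ≠ i := by rintro rfl; simp at h1
    simp only [this, h1, if_false]
    rfl

end perm

section reduce

variable {n : ℕ}

/-- the invariant of the reduction: row sums `1`, the identity modulo `2`, and the first `k`
columns are those of the identity -/
structure Good (k : ℕ) (M : GL (Fin n) ℤ) : Prop where
  one : ∀ x, ∑ y, M.1 x y = 1
  even : ∀ x y, (2 : ℤ) ∣ M.1 x y - (1 : Matrix (Fin n) (Fin n) ℤ) x y
  col : ∀ x y : Fin n, (y : ℕ) < k → M.1 x y = (1 : Matrix (Fin n) (Fin n) ℤ) x y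

theorem Good.refl {k : ℕ} {M : GL (Fin n) ℤ} (hM : Good k M) {i j : Fin n} (h : i ≠ j)
    (hi : k ≤ i) (hj : k ≤ j) : Good k (rGL h * M) := by
  refine ⟨fun x => ?_, fun x y => ?_, fun x y hy => ?_⟩
  · simp only [rGL_mul]
    split_ifs
    · rw [Finset.sum_sub_distrib, ← Finset.mul_sum, hM.one, hM.one]; norm_num
    · exact hM.one x
  · rw [rGL_mul]
    split_ifs with h1
    · subst h1
      have h1 := hM.even x y
      obtain ⟨c, hc⟩ := h1
      exact ⟨M.1 j y - (1 : Matrix (Fin n) (Fin n) ℤ) x y - c, by linarith⟩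
    · exact hM.even x y
  · rw [rGL_mul]
    split_ifs with h1
    · subst h1
      rw [hM.col j y hy, hM.col x y hy, Matrix.one_apply_ne, Matrix.one_apply_ne]
      · norm_num
      · rintro rfl; omega
      · rintro rfl; omega
    · exact hM.col x y hy

/-- the translation `row_i ↦ row_i + 2 (row_j - row_l)` -/
theorem tr_mul {i j l : Fin n} (hj : i ≠ j) (hl : i ≠ l) (M : GL (Fin n) ℤ) (x y : Fin n) :
    (rGL hj * (rGL hl * M)).1 x y =
      if x = i then M.1 i y + 2 * (M.1 j y - M.1 l y) else M.1 x y := by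
  rw [rGL_mul]
  split_ifs with h1
  · rw [rGL_mul, rGL_mul, if_neg hj.symm, if_pos rfl]; ring
  · rw [rGL_mul, if_neg h1]

theorem Good.tr {k : ℕ} {M : GL (Fin n) ℤ} (hM : Good k M) {i j l : Fin n} (hj : i ≠ j)
    (hl : i ≠ l) (hkj : k ≤ j) (hkl : k ≤ l) : Good k (rGL hj * (rGL hl * M)) := by
  refine ⟨fun x => ?_, fun x y => ?_, fun x y hy => ?_⟩
  · simp only [tr_mul]
    split_ifs
    · rw [Finset.sum_add_distrib, ← Finset.mul_sum, Finset.sum_sub_distrib, hM.one, hM.one,
        hM.one]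
      norm_num
    · exact hM.one x
  · rw [tr_mul]
    split_ifs with h1
    · subst h1
      have h1 := hM.even x y
      obtain ⟨c, hc⟩ := h1
      exact ⟨c + (M.1 j y - M.1 l y), by linarith⟩
    · exact hM.even x y
  · rw [tr_mul]
    split_ifs with h1
    · subst h1
      have e1 : (1 : Matrix (Fin n) (Fin n) ℤ) j y = 0 := by
        apply Matrix.one_apply_ne; rintro rfl; omega
      have e2 : (1 : Matrix (Fin n) (Fin n) ℤ) l y = 0 := by
        apply Matrix.one_apply_ne; rintro rfl; omega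
      rw [hM.col j y hy, hM.col l y hy, hM.col x y hy, e1, e2]
      norm_num
    · exact hM.col x y hy

/-- the entries of column `k` in the rows `≥ k` are not all congruent modulo `N ≠ ±1` -/
theorem Good.cong {k : Fin n} {M : GL (Fin n) ℤ} (hM : Good k M) (hk : (k : ℕ) + 1 < n)
    (N t : ℤ) (h : ∀ x : Fin n, k ≤ x → N ∣ M.1 x k - t) : N ∣ 1 := by
  let v : Fin n → ℤ := fun y => (if y = k then 1 else 0) - t - (if y < k then M.1 y k - t else 0)
  have hv : ∀ x, N ∣ (M.1 *ᵥ v) x := by
    intro x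
    have e : (M.1 *ᵥ v) x = M.1 x k - t - (if x < k then M.1 x k - t else 0) := by
      have e1 : (M.1 *ᵥ v) x = ∑ y, (M.1 x y * (if y = k then 1 else 0)) - ∑ y, M.1 x y * t
          - ∑ y, M.1 x y * (if y < k then M.1 y k - t else 0) := by
        rw [← Finset.sum_sub_distrib, ← Finset.sum_sub_distrib]
        change ∑ y, M.1 x y * v y = _
        apply Finset.sum_congr rfl
        intro y _
        simp only [v]; ring
      rw [e1, ← Finset.sum_mul, hM.one]
      have e2 : ∑ y, M.1 x y * (if y < k then M.1 y k - t else 0) =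
          ∑ y, (1 : Matrix (Fin n) (Fin n) ℤ) x y * (if y < k then M.1 y k - t else 0) := by
        apply Finset.sum_congr rfl
        intro y _
        by_cases hy : y < k
        · rw [hM.col x y hy]
        · simp [hy]
      rw [e2]
      have e3 : ∑ y, (1 : Matrix (Fin n) (Fin n) ℤ) x y * (if y < k then M.1 y k - t else 0) =
          (if x < k then M.1 x k - t else 0) := by
        rw [Finset.sum_eq_single x]
        · simp
        · intro y _ hy; rw [Matrix.one_apply_ne hy.symm, zero_mul]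
        · simp
      rw [e3]
      simp
    rw [e]
    split_ifs with h1
    · simp
    · rw [sub_zero]; exact h x (not_lt.1 h1)
  have hv2 : ∀ x, N ∣ v x := by
    intro x
    have e : v = M⁻¹.1 *ᵥ (M.1 *ᵥ v) := by
      rw [Matrix.mulVec_mulVec, ← Units.val_mul, inv_mul_cancel, Units.val_one, Matrix.one_mulVec]
    rw [e]
    change N ∣ ∑ y, M⁻¹.1 x y * (M.1 *ᵥ v) y
    exact Finset.dvd_sum fun y _ => Dvd.dvd.mul_left (hv y) _
  have h1 := hv2 k
  have h2 := hv2 ⟨k + 1, hk⟩
  have hne : (⟨k + 1, hk⟩ : Fin n) ≠ k := by intro h'; have := congrArg Fin.val h'; simp at this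
  have hnl : ¬ (⟨k + 1, hk⟩ : Fin n) < k := by
    intro h'; have : (k : ℕ) + 1 < k := h'; omega
  simp only [v, if_pos rfl, lt_irrefl, if_false, hne, hnl] at h1 h2
  have := dvd_sub h1 h2
  simpa using this

/-- the potential of column `k` -/
def pot (k : Fin n) (M : GL (Fin n) ℤ) : ℕ := ∑ x : Fin n, if k ≤ x then (M.1 x k).natAbs else 0

theorem pot_lt {k i : Fin n} {M M' : GL (Fin n) ℤ} (hi : k ≤ i)
    (h : ∀ x, x ≠ i → M'.1 x k = M.1 x k) (hlt : (M'.1 i k).natAbs < (M.1 i k).natAbs) :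
    pot k M' < pot k M := by
  apply Finset.sum_lt_sum
  · intro x _
    by_cases hx : x = i
    · subst hx; rw [if_pos hi, if_pos hi]; exact hlt.le
    · rw [h x hx]
  · exact ⟨i, Finset.mem_univ _, by rw [if_pos hi, if_pos hi]; exact hlt⟩

/-- clearing the entries below the diagonal -/
theorem clear_below (G : Subgroup (GL (Fin n) ℤ)) (hG : ∀ i j : Fin n, ∀ h : i ≠ j, rGL h ∈ G)
    (k : Fin n) (hk : (k : ℕ) + 1 < n) :
    ∀ N : ℕ, ∀ M : GL (Fin n) ℤ, Good k M → pot k M ≤ N →
      ∃ g ∈ G, Good k (g * M) ∧ (g * M).1 k k = 1 ∧ ∀ x, k < x → (g * M).1 x k = 0 := by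
  intro N
  induction N with
  | zero =>
    intro M hM hN
    have h0 : ∀ x : Fin n, (if k ≤ x then (M.1 x k).natAbs else 0) = 0 := by
      have := Nat.le_zero.1 hN
      unfold pot at this
      rw [Finset.sum_eq_zero_iff] at this
      exact fun x => this x (Finset.mem_univ _)
    have h1 := h0 k
    rw [if_pos le_rfl, Int.natAbs_eq_zero] at h1
    have h2 := hM.even k k
    rw [h1, Matrix.one_apply_eq] at h2
    norm_num at h2
  | succ N ih =>
    intro M hM hN
    -- the reducing steps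
    have step : ∀ g ∈ G, Good k (g * M) → pot k (g * M) < pot k M →
        ∃ g ∈ G, Good k (g * M) ∧ (g * M).1 k k = 1 ∧ ∀ x, k < x → (g * M).1 x k = 0 := by
      intro g hg hgM hlt
      obtain ⟨g', hg', h1, h2, h3⟩ := ih (g * M) hgM (by omega)
      exact ⟨g' * g, G.mul_mem hg' hg, by rwa [mul_assoc], by rwa [mul_assoc],
        by rwa [mul_assoc]⟩
    by_cases H1 : ∃ i j : Fin n, k ≤ i ∧ k ≤ j ∧ i ≠ j ∧
        (2 * M.1 j k - M.1 i k).natAbs < (M.1 i k).natAbs
    · obtain ⟨i, j, hi, hj, hij, hlt⟩ := H1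
      refine step (rGL hij) (hG _ _ _) (hM.refl hij hi hj) (pot_lt (i := i) hi ?_ ?_)
      · intro x hx; rw [rGL_mul, if_neg hx]
      · rw [rGL_mul, if_pos rfl]; exact hlt
    by_cases H2 : ∃ i j l : Fin n, k ≤ i ∧ k ≤ j ∧ k ≤ l ∧ i ≠ j ∧ i ≠ l ∧
        (M.1 i k + 2 * (M.1 j k - M.1 l k)).natAbs < (M.1 i k).natAbs
    · obtain ⟨i, j, l, hi, hj, hl, hij, hil, hlt⟩ := H2
      refine step (rGL hij * rGL hil) (G.mul_mem (hG _ _ _) (hG _ _ _)) ?_
        (pot_lt (i := i) hi ?_ ?_)
      · rw [mul_assoc]; exact hM.tr hij hil hj hl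
      · intro x hx; rw [mul_assoc, tr_mul, if_neg hx]
      · rw [mul_assoc, tr_mul, if_pos rfl]; exact hlt
    -- now the state is stuck
    have S1 : ∀ i j : Fin n, k ≤ i → k ≤ j → i ≠ j →
        (M.1 i k).natAbs ≤ (2 * M.1 j k - M.1 i k).natAbs := by
      intro i j hi hj hij
      by_contra h
      exact H1 ⟨i, j, hi, hj, hij, not_le.1 h⟩
    have S2 : ∀ i j l : Fin n, k ≤ i → k ≤ j → k ≤ l → i ≠ j → i ≠ l →
        (M.1 i k).natAbs ≤ (M.1 i k + 2 * (M.1 j k - M.1 l k)).natAbs := by
      intro i j l hi hj hl hij hil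
      by_contra h
      exact H2 ⟨i, j, l, hi, hj, hl, hij, hil, not_le.1 h⟩
    have hp : ∃ c, M.1 k k = 1 + 2 * c := by
      obtain ⟨c, hc⟩ := hM.even k k
      rw [Matrix.one_apply_eq] at hc
      exact ⟨c, by linarith⟩
    have hev : ∀ x : Fin n, k < x → ∃ c, M.1 x k = 2 * c := by
      intro x hx
      obtain ⟨c, hc⟩ := hM.even x k
      rw [Matrix.one_apply_ne hx.ne'] at hc
      exact ⟨c, by linarith⟩
    obtain ⟨p, hp⟩ := hp
    by_cases hz : ∀ x, k < x → M.1 x k = 0
    · -- all entries below vanish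
      have h1 : M.1 k k ∣ 1 := by
        apply hM.cong hk (M.1 k k) 0
        intro x hx
        rcases hx.eq_or_lt with rfl | hx
        · simp
        · rw [hz x hx]; simp
      have h2 : M.1 k k = 1 ∨ M.1 k k = -1 := Int.isUnit_iff.1 (isUnit_of_dvd_one h1)
      rcases h2 with h2 | h2
      · exact ⟨1, G.one_mem, by rwa [one_mul], by rwa [one_mul], by rwa [one_mul]⟩
      · have hne : k ≠ (⟨k + 1, hk⟩ : Fin n) := by
          intro h'; have := congrArg Fin.val h'; simp at this
        have hlt : k < (⟨k + 1, hk⟩ : Fin n) := by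
          change (k : ℕ) < k + 1; omega
        refine ⟨rGL hne, hG _ _ _, hM.refl hne le_rfl hlt.le, ?_, ?_⟩
        · rw [rGL_mul, if_pos rfl, hz _ hlt, h2]; norm_num
        · intro x hx
          rw [rGL_mul, if_neg hx.ne', hz x hx]
    · push Not at hz
      obtain ⟨x, hx, hx0⟩ := hz
      exfalso
      obtain ⟨q, hq⟩ := hev x hx
      have a1 := S1 k x le_rfl hx.le hx.ne
      have a2 := S1 x k hx.le le_rfl hx.ne'
      by_cases hy : ∃ y, k < y ∧ M.1 y k = 0
      · obtain ⟨y, hy, hy0⟩ := hy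
        have hxy : x ≠ y := by rintro rfl; exact hx0 hy0
        have a3 := S2 x k y hx.le le_rfl hy.le hx.ne' hxy
        have a4 := S2 x y k hx.le hy.le le_rfl hxy hx.ne'
        have a5 := S2 k x y le_rfl hx.le hy.le hx.ne hy.ne
        have a6 := S2 k y x le_rfl hy.le hx.le hy.ne hx.ne
        rw [hy0] at a3 a4 a5 a6
        omega
      · push Not at hy
        have hall : ∀ y, k < y → M.1 y k = M.1 x k := by
          intro y hyk
          by_cases hxy : y = x
          · rw [hxy]
          have hy0 := hy y hyk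
          obtain ⟨r, hr⟩ := hev y hyk
          have b1 := S1 k y le_rfl hyk.le hyk.ne
          have b2 := S1 y k hyk.le le_rfl hyk.ne'
          have b3 := S1 x y hx.le hyk.le (Ne.symm hxy)
          have b4 := S1 y x hyk.le hx.le hxy
          omega
        have h1 : M.1 k k - M.1 x k ∣ 1 := by
          apply hM.cong hk _ (M.1 k k)
          intro y hyk
          rcases hyk.eq_or_lt with rfl | hyk
          · simp
          · rw [hall y hyk]
            exact ⟨-1, by ring⟩
        have h2 := Int.isUnit_iff.1 (isUnit_of_dvd_one h1)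
        omega

/-- clearing the entries above the diagonal -/
theorem clear_above (G : Subgroup (GL (Fin n) ℤ)) (hG : ∀ i j : Fin n, ∀ h : i ≠ j, rGL h ∈ G)
    (k : Fin n) (hk : (k : ℕ) + 1 < n) :
    ∀ N : ℕ, ∀ M : GL (Fin n) ℤ, Good k M → (M.1 k k = 1 ∧ ∀ x, k < x → M.1 x k = 0) →
      (∑ x : Fin n, if x < k then (M.1 x k).natAbs else 0) ≤ N →
      ∃ g ∈ G, Good (k + 1) (g * M) := by
  intro N
  induction N with
  | zero =>
    intro M hM h1 hN
    have h0 : ∀ x : Fin n, (if x < k then (M.1 x k).natAbs else 0) = 0 := by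
      have := Nat.le_zero.1 hN
      rw [Finset.sum_eq_zero_iff] at this
      exact fun x => this x (Finset.mem_univ _)
    refine ⟨1, G.one_mem, ?_⟩
    rw [one_mul]
    refine ⟨hM.one, hM.even, fun x y hy => ?_⟩
    rcases Nat.lt_succ_iff_lt_or_eq.1 hy with hy | hy
    · exact hM.col x y hy
    · have hyk : y = k := Fin.ext hy
      subst hyk
      rcases lt_trichotomy x y with h | h | h
      · have := h0 x
        rw [if_pos h, Int.natAbs_eq_zero] at this
        rw [this, Matrix.one_apply_ne h.ne]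
      · subst h; rw [h1.1, Matrix.one_apply_eq]
      · rw [h1.2 x h, Matrix.one_apply_ne h.ne']
  | succ N ih =>
    intro M hM h1 hN
    by_cases hz : ∀ x, x < k → M.1 x k = 0
    · apply ih M hM h1
      rw [Finset.sum_eq_zero]
      · omega
      · intro x _
        split_ifs with h
        · rw [hz x h]; rfl
        · rfl
    push Not at hz
    obtain ⟨i, hi, hi0⟩ := hz
    have hlt : k < (⟨k + 1, hk⟩ : Fin n) := by
      change (k : ℕ) < k + 1; omega
    set j : Fin n := ⟨k + 1, hk⟩ with hj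
    have hij : i ≠ j := (hi.trans hlt).ne
    have hjk : M.1 j k = 0 := h1.2 j hlt
    obtain ⟨c, hc⟩ := hM.even i k
    rw [Matrix.one_apply_ne hi.ne] at hc
    have step : ∀ M' : GL (Fin n) ℤ, ∀ g ∈ G, M' = g * M → Good k M' →
        (∀ x, x ≠ i → M'.1 x k = M.1 x k) → (M'.1 i k).natAbs < (M.1 i k).natAbs →
        ∃ g ∈ G, Good (k + 1) (g * M) := by
      intro M' g hg hM' hgood hsame hdec
      obtain ⟨g', hg', h'⟩ := ih M' hgood
        ⟨by rw [hsame k hi.ne', h1.1], fun x hx => by rw [hsame x (hi.trans hx).ne', h1.2 x hx]⟩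
        (by
          have : (∑ x : Fin n, if x < k then (M'.1 x k).natAbs else 0) <
              (∑ x : Fin n, if x < k then (M.1 x k).natAbs else 0) := by
            apply Finset.sum_lt_sum
            · intro x _
              by_cases hx : x = i
              · subst hx; rw [if_pos hi, if_pos hi]; exact hdec.le
              · rw [hsame x hx]
            · exact ⟨i, Finset.mem_univ _, by rw [if_pos hi, if_pos hi]; exact hdec⟩
          omega)
      refine ⟨g' * g, G.mul_mem hg' hg, ?_⟩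
      rw [mul_assoc, ← hM']
      exact h'
    by_cases hpos : 0 < M.1 i k
    · -- subtract `2 (row_k - row_j)`
      refine step (rGL hij * (rGL hi.ne * M)) (rGL hij * rGL hi.ne)
        (G.mul_mem (hG _ _ _) (hG _ _ _)) (by rw [mul_assoc]) (hM.tr hij hi.ne hlt.le le_rfl) ?_ ?_
      · intro x hx; rw [tr_mul, if_neg hx]
      · rw [tr_mul, if_pos rfl, hjk, h1.1]
        omega
    · refine step (rGL hi.ne * (rGL hij * M)) (rGL hi.ne * rGL hij)
        (G.mul_mem (hG _ _ _) (hG _ _ _)) (by rw [mul_assoc]) (hM.tr hi.ne hij le_rfl hlt.le) ?_ ?_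
      · intro x hx; rw [tr_mul, if_neg hx]
      · rw [tr_mul, if_pos rfl, hjk, h1.1]
        omega

theorem mem_of_good {m : ℕ} (G : Subgroup (GL (Fin (m + 1)) ℤ))
    (hG : ∀ i j : Fin (m + 1), ∀ h : i ≠ j, rGL h ∈ G) :
    ∀ d k : ℕ, k + d = m → ∀ M : GL (Fin (m + 1)) ℤ, Good k M → M ∈ G := by
  intro d
  induction d with
  | zero =>
    intro k hk M hM
    have hkm : k = m := by omega
    subst hkm
    have : M = 1 := by
      apply Units.ext
      ext x y
      by_cases hy : (y : ℕ) < k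
      · exact hM.col x y hy
      · have hyl : y = Fin.last k := by
          ext; simp only [Fin.val_last]; have := y.2; omega
        subst hyl
        have h1 := hM.one x
        rw [Fin.sum_univ_castSucc] at h1
        have h2 : ∑ i : Fin k, M.1 x i.castSucc =
            ∑ i : Fin k, (1 : Matrix (Fin (k + 1)) (Fin (k + 1)) ℤ) x i.castSucc := by
          apply Finset.sum_congr rfl
          intro i _
          exact hM.col x _ (by simp)
        have h3 : ∑ y, (1 : Matrix (Fin (k + 1)) (Fin (k + 1)) ℤ) x y = 1 := by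
          simp [Matrix.one_apply]
        rw [Fin.sum_univ_castSucc] at h3
        rw [h2] at h1
        have : M.1 x (Fin.last k) = (1 : Matrix (Fin (k + 1)) (Fin (k + 1)) ℤ) x (Fin.last k) := by
          linarith
        exact this
    rw [this]; exact G.one_mem
  | succ d ih =>
    intro k hk M hM
    have hkm : k < m + 1 := by omega
    obtain ⟨g, hg, h1, h2, h3⟩ := clear_below G hG ⟨k, hkm⟩ (by simp; omega) _ M hM le_rfl
    obtain ⟨g', hg', h4⟩ := clear_above G hG ⟨k, hkm⟩ (by simp; omega) _ (g * M) h1 ⟨h2, h3⟩ le_rfl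
    have h5 := ih (k + 1) (by omega) _ h4
    have h6 : M = (g' * g)⁻¹ * (g' * (g * M)) := by group
    rw [h6]
    exact G.mul_mem (G.inv_mem (G.mul_mem hg' hg)) h5

end reduce

section main

variable {m : ℕ}

theorem perm_mem (G : Subgroup (GL (Fin (m + 1)) ℤ)) (hG : ∀ i : Fin m, tGL (cs_ne i) ∈ G)
    (π : Equiv.Perm (Fin (m + 1))) : pGL ℤ π ∈ G := by
  have h : π ∈ Submonoid.closure (Set.range fun i : Fin m ↦ Equiv.swap i.castSucc i.succ) := by
    rw [Equiv.Perm.mclosure_swap_castSucc_succ]; exact Submonoid.mem_top _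
  induction h using Submonoid.closure_induction with
  | mem x hx =>
    obtain ⟨i, rfl⟩ := hx
    have := hG i
    rwa [tGL_eq] at this
  | one => rw [map_one]; exact G.one_mem
  | mul x y _ _ hx hy => rw [map_mul]; exact G.mul_mem hx hy

theorem exists_perm {ι : Type*} [DecidableEq ι] {a b i j : ι} (hab : a ≠ b) (hij : i ≠ j) :
    ∃ π : Equiv.Perm ι, π a = i ∧ π b = j := by
  refine ⟨Equiv.swap (Equiv.swap a i b) j * Equiv.swap a i, ?_, ?_⟩
  · rw [Equiv.Perm.mul_apply, Equiv.swap_apply_left]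
    apply Equiv.swap_apply_of_ne_of_ne _ hij
    intro h
    have h2 := congrArg (Equiv.swap a i) h
    rw [Equiv.swap_apply_self, Equiv.swap_apply_right] at h2
    exact hab h2
  · rw [Equiv.Perm.mul_apply, Equiv.swap_apply_left]

theorem refl_mem (G : Subgroup (GL (Fin (m + 1)) ℤ)) (hG : ∀ i : Fin m, tGL (cs_ne i) ∈ G)
    (hG' : ∀ i : Fin m, sGL (cs_ne i) ∈ G) (i j : Fin (m + 1)) (h : i ≠ j) : rGL h ∈ G := by
  have hm : 0 < m := by
    rcases Nat.eq_zero_or_pos m with h0 | h0
    · subst h0; exact absurd (Fin.ext (by omega)) h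
    · exact h0
  let z : Fin m := ⟨0, hm⟩
  obtain ⟨π, h1, h2⟩ := exists_perm (cs_ne z) h
  have h3 : π z.castSucc ≠ π z.succ := by rw [h1, h2]; exact h
  have h4 := rGL_conj (cs_ne z) π h3
  have h5 : rGL h3 ∈ G := by
    rw [← h4]
    exact G.mul_mem (G.mul_mem (perm_mem G hG π) (G.mul_mem (hG' z) (hG z)))
      (G.inv_mem (perm_mem G hG π))
  have h6 : rGL h3 = rGL h := by
    have : ∀ (a b : Fin (m + 1)) (ha : a = i) (hb : b = j) (hne : a ≠ b), rGL hne = rGL h := by
      rintro a b rfl rfl hne; rfl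
    exact this _ _ h1 h2 h3
  rwa [← h6]

theorem mem_of_cond (G : Subgroup (GL (Fin (m + 1)) ℤ)) (hG : ∀ i : Fin m, tGL (cs_ne i) ∈ G)
    (hG' : ∀ i : Fin m, sGL (cs_ne i) ∈ G) (M : GL (Fin (m + 1)) ℤ) (h1 : M.1 *ᵥ 1 = 1)
    (π : Equiv.Perm (Fin (m + 1)))
    (h2 : ∀ x y, (M.1 x y : ZMod 2) = if x = π y then 1 else 0) : M ∈ G := by
  have h3 : pGL ℤ π⁻¹ * M ∈ G := by
    apply mem_of_good G (refl_mem G hG hG') m 0 (by omega)
    have e : ∀ x y, (pGL ℤ π⁻¹ * M).1 x y = M.1 (π x) y := by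
      intro x y
      change (pMat ℤ π⁻¹ * M.1) x y = _
      rw [pMat_mul, inv_inv]
    refine ⟨fun x => ?_, fun x y => ?_, fun x y hy => absurd hy (Nat.not_lt_zero _)⟩
    · simp only [e]
      have := congrFun h1 (π x)
      simpa [Matrix.mulVec, dotProduct] using this
    · rw [e]
      have h4 := h2 (π x) y
      have h5 : ((M.1 (π x) y - (1 : Matrix (Fin (m + 1)) (Fin (m + 1)) ℤ) x y : ℤ) : ZMod 2)
          = 0 := by
        rw [Int.cast_sub, h4, Matrix.one_apply]
        by_cases hxy : x = y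
        · subst hxy; simp
        · have : π x ≠ π y := fun h' => hxy (π.injective h')
          simp [this, hxy]
      exact (ZMod.intCast_zmod_eq_zero_iff_dvd _ 2).1 h5
  have h4 : M = (pGL ℤ π⁻¹)⁻¹ * (pGL ℤ π⁻¹ * M) := by group
  rw [h4]
  exact G.mul_mem (G.inv_mem (perm_mem G hG _)) h3

/-- the subgroup of all matrices satisfying the two conditions -/
def target (m : ℕ) : Subgroup (GL (Fin (m + 1)) ℤ) where
  carrier := {M | M.1 *ᵥ 1 = 1 ∧ ∃ π : Equiv.Perm (Fin (m + 1)), M.1.map (Int.castRingHom (ZMod 2)) = pMat (ZMod 2) π}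
  one_mem' := ⟨by simp, 1, by rw [pMat_one, Units.val_one]; simp⟩
  mul_mem' := by
    rintro A B ⟨hA, π, hπ⟩ ⟨hB, ρ, hρ⟩
    refine ⟨by rw [Units.val_mul, ← Matrix.mulVec_mulVec, hB, hA], π * ρ, ?_⟩
    rw [Units.val_mul, Matrix.map_mul, hπ, hρ, pMat_pMat]
  inv_mem' := by
    rintro A ⟨hA, π, hπ⟩
    refine ⟨?_, π⁻¹, ?_⟩
    · calc A⁻¹.1 *ᵥ 1 = A⁻¹.1 *ᵥ (A.1 *ᵥ 1) := by rw [hA]
        _ = 1 := by
          rw [Matrix.mulVec_mulVec, ← Units.val_mul, inv_mul_cancel, Units.val_one,
            Matrix.one_mulVec]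
    · have e1 : (A⁻¹.1.map (Int.castRingHom (ZMod 2))) * (A.1.map (Int.castRingHom (ZMod 2))) = 1 := by
        rw [← Matrix.map_mul, ← Units.val_mul, inv_mul_cancel, Units.val_one]
        simp
      have e2 : pMat (ZMod 2) π * pMat (ZMod 2) π⁻¹ = 1 := by
        rw [← pMat_pMat, mul_inv_cancel, pMat_one]
      calc (A⁻¹.1.map (Int.castRingHom (ZMod 2)))
          = (A⁻¹.1.map (Int.castRingHom (ZMod 2))) * (pMat (ZMod 2) π * pMat (ZMod 2) π⁻¹) := by
            rw [e2, Matrix.mul_one]
        _ = pMat (ZMod 2) π⁻¹ := by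
            rw [← Matrix.mul_assoc, ← hπ, e1, Matrix.one_mul]

theorem t_target (i : Fin m) : tGL (cs_ne i) ∈ target m := by
  refine ⟨?_, Equiv.swap i.castSucc i.succ, ?_⟩
  · funext x
    have h := tGL_eq (cs_ne i)
    rw [h]
    change ∑ y, pMat ℤ (Equiv.swap i.castSucc i.succ) x y * (1 : Fin (m + 1) → ℤ) y = 1
    rw [Finset.sum_eq_single ((Equiv.swap i.castSucc i.succ)⁻¹ x)]
    · simp [pMat]
    · intro z _ hz
      have : x ≠ (Equiv.swap i.castSucc i.succ) z := by rintro rfl; simp at hz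
      simp [pMat, this]
    · simp
  · rw [tGL_eq]
    ext x y
    change ((pMat ℤ (Equiv.swap i.castSucc i.succ) x y : ℤ) : ZMod 2) = _
    simp only [pMat]
    split_ifs <;> simp

theorem s_target (i : Fin m) : sGL (cs_ne i) ∈ target m := by
  have h : sGL (cs_ne i) = rGL (cs_ne i) * tGL (cs_ne i) := by
    unfold rGL
    rw [mul_assoc]
    have : tGL (cs_ne i) * tGL (cs_ne i) = 1 := Units.ext (tMat_tMat (cs_ne i))
    rw [this, mul_one]
  rw [h]
  refine (target m).mul_mem ?_ (t_target i)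
  have e : ∀ x y, (rGL (cs_ne i)).1 x y = if x = i.castSucc then
      2 * (1 : Matrix (Fin (m + 1)) (Fin (m + 1)) ℤ) i.succ y
        - (1 : Matrix (Fin (m + 1)) (Fin (m + 1)) ℤ) i.castSucc y
      else (1 : Matrix (Fin (m + 1)) (Fin (m + 1)) ℤ) x y := by
    intro x y
    have := rGL_mul (cs_ne i) 1 x y
    rwa [mul_one] at this
  have hs : ∀ x, ∑ y, (1 : Matrix (Fin (m + 1)) (Fin (m + 1)) ℤ) x y = 1 := by
    intro x; simp [Matrix.one_apply]
  refine ⟨?_, 1, ?_⟩
  · funext x
    change ∑ y, (rGL (cs_ne i)).1 x y * (1 : Fin (m + 1) → ℤ) y = 1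
    simp only [Pi.one_apply, mul_one, e]
    split_ifs
    · rw [Finset.sum_sub_distrib, ← Finset.mul_sum, hs, hs]; norm_num
    · exact hs x
  · ext x y
    rw [pMat_one]
    change (((rGL (cs_ne i)).1 x y : ℤ) : ZMod 2) = _
    rw [e]
    have h2 : (2 : ZMod 2) = 0 := rfl
    have h3 : ∀ a : ZMod 2, -a = a := by decide
    split_ifs with h1
    · subst h1
      simp [Matrix.one_apply, h2, h3]
    · simp [Matrix.one_apply]

/-- The virtual integral Burau representation `ρ_v` on `n = m + 1` strands: there is a (unique)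
homomorphism with the prescribed values on the generators, and its image is the set of all
`M ∈ GL_n(ℤ)` such that `M (1, …, 1)ᵗ = (1, …, 1)ᵗ` and `M mod 2` is a permutation matrix. -/
theorem result (m : ℕ) :
    ∃ ρ : VB m →* GL (Fin (m + 1)) ℤ,
      (∀ i : Fin m, (ρ (PresentedGroup.of (.inl i))).1 = sMat i.castSucc i.succ) ∧
      (∀ i : Fin m, (ρ (PresentedGroup.of (.inr i))).1 = tMat i.castSucc i.succ) ∧
      (∀ ρ' : VB m →* GL (Fin (m + 1)) ℤ,
        (∀ i : Fin m, (ρ' (PresentedGroup.of (.inl i))).1 = sMat i.castSucc i.succ) →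
        (∀ i : Fin m, (ρ' (PresentedGroup.of (.inr i))).1 = tMat i.castSucc i.succ) → ρ' = ρ) ∧
      ∀ M : GL (Fin (m + 1)) ℤ, M ∈ ρ.range ↔
        M.1 *ᵥ 1 = 1 ∧
          ∃ π : Equiv.Perm (Fin (m + 1)), ∀ x y, (M.1 x y : ZMod 2) = if x = π y then 1 else 0 := by
  have e1 : ∀ i : Fin m, rho m (PresentedGroup.of (.inl i)) = sGL (cs_ne i) := fun i =>
    PresentedGroup.toGroup.of _
  have e2 : ∀ i : Fin m, rho m (PresentedGroup.of (.inr i)) = tGL (cs_ne i) := fun i =>
    PresentedGroup.toGroup.of _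
  refine ⟨rho m, fun i => by rw [e1]; rfl, fun i => by rw [e2]; rfl, ?_, fun M => ⟨?_, ?_⟩⟩
  · intro ρ' h1 h2
    apply PresentedGroup.ext
    rintro (i | i)
    · apply Units.ext; rw [h1, e1]; rfl
    · apply Units.ext; rw [h2, e2]; rfl
  · rintro ⟨g, rfl⟩
    have h : rho m g ∈ target m := by
      have h' : (target m).comap (rho m) = ⊤ := by
        rw [eq_top_iff, ← PresentedGroup.closure_range_of, Subgroup.closure_le]
        rintro _ ⟨(i | i), rfl⟩
        · change rho m _ ∈ target m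
          rw [e1]; exact s_target i
        · change rho m _ ∈ target m
          rw [e2]; exact t_target i
      have : g ∈ (target m).comap (rho m) := by rw [h']; trivial
      exact this
    obtain ⟨h1, π, hπ⟩ := h
    exact ⟨h1, π, fun x y => congrFun (congrFun hπ x) y⟩
  · rintro ⟨h1, π, hπ⟩
    exact mem_of_cond (rho m).range (fun i => MonoidHom.mem_range.2 ⟨_, e2 i⟩)
      (fun i => MonoidHom.mem_range.2 ⟨_, e1 i⟩) M h1 π hπ

end main

end Pool.Agent.Results.MP_e5baee_al.ImageDetermined
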